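import Pool.Agent.Y300.KS.Stm
import Pool.Agent.K300.Race2

/-! KS-RACE: the racetrack theorem with the position of the limit cycle. -/

set_option autoImplicit false

open Set Filter Topology
open Pool.Agent.GR.Flow

namespace Pool.Agent.Y274.KS

open Pool.Agent.K300 Pool.Agent.Y300.KS

/-- the position of a turn in the four quadrants -/
def Quads (φ : ℝ → ℝ × ℝ → ℝ × ℝ) (l₁ d₁ r₁ u₁ u₃ : ℝ) (T : ℝ → ℝ) : Prop :=
  ∀ b ∈ Icc u₁ u₃, ∃ s₁ s₂ s₃ : ℝ, 0 < s₁ ∧ s₁ < s₂ ∧ s₂ < s₃ ∧ s₃ < T b ∧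
    (∀ t ∈ Icc 0 s₁, 0 ≤ (φ t (0, b)).1 ∧ 0 ≤ (φ t (0, b)).2 ∧
      (r₁ ≤ (φ t (0, b)).1 ∨ u₁ ≤ (φ t (0, b)).2)) ∧
    (∀ t ∈ Icc s₁ s₂, 0 ≤ (φ t (0, b)).1 ∧ (φ t (0, b)).2 ≤ 0 ∧
      (d₁ ≤ -(φ t (0, b)).2 ∨ r₁ ≤ (φ t (0, b)).1)) ∧
    (∀ t ∈ Icc s₂ s₃, (φ t (0, b)).1 ≤ 0 ∧ (φ t (0, b)).2 ≤ 0 ∧
      (l₁ ≤ -(φ t (0, b)).1 ∨ d₁ ≤ -(φ t (0, b)).2)) ∧
    (∀ t ∈ Icc s₃ (T b), (φ t (0, b)).1 ≤ 0 ∧ 0 ≤ (φ t (0, b)).2 ∧
      (u₁ ≤ (φ t (0, b)).2 ∨ l₁ ≤ -(φ t (0, b)).1))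

theorem exists_turn' {W : ℝ × ℝ → ℝ × ℝ} {φ : ℝ → ℝ × ℝ → ℝ × ℝ} (h : Fl W φ)
    {r₀ r₁ r₂ r₃ d₀ d₁ d₂ d₃ l₀ l₁ l₂ l₃ u₀ u₁ u₂ u₃ : ℝ}
    (q1 : Quad W r₁ r₂ r₃ u₀ u₁ u₃)
    (q2 : Quad (rotW W) d₁ d₂ d₃ r₀ r₁ r₃)
    (q3 : Quad (rotW (rotW W)) l₁ l₂ l₃ d₀ d₁ d₃)
    (q4 : Quad (rotW (rotW (rotW W))) u₁ u₂ u₃ l₀ l₁ l₃) :
    ∃ T g, Turn φ l₃ d₃ r₃ u₁ u₃ T g ∧ Quads φ l₁ d₁ r₁ u₁ u₃ T := by
  obtain ⟨τ₁, c₁, s1⟩ := exists_stage h q1
  obtain ⟨τ₂, c₂, s2⟩ := exists_stage h.rot q2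
  obtain ⟨τ₃, c₃, s3⟩ := exists_stage h.rot.rot q3
  obtain ⟨τ₄, c₄, s4⟩ := exists_stage h.rot.rot.rot q4
  have m1 : MapsTo c₁ (Icc u₁ u₃) (Icc r₁ r₃) := fun b hb => Ioo_subset_Icc_self (s1.mem b hb)
  have m2 : MapsTo c₂ (Icc r₁ r₃) (Icc d₁ d₃) := fun b hb => Ioo_subset_Icc_self (s2.mem b hb)
  have m3 : MapsTo c₃ (Icc d₁ d₃) (Icc l₁ l₃) := fun b hb => Ioo_subset_Icc_self (s3.mem b hb)
  have k1 : ContinuousOn c₁ (Icc u₁ u₃) := s1.contC
  have k2 : ContinuousOn (fun b => c₂ (c₁ b)) (Icc u₁ u₃) := s2.contC.comp k1 m1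
  have k3 : ContinuousOn (fun b => c₃ (c₂ (c₁ b))) (Icc u₁ u₃) := s3.contC.comp k2 (m2.comp m1)
  have k4 : ContinuousOn (fun b => c₄ (c₃ (c₂ (c₁ b)))) (Icc u₁ u₃) :=
    s4.contC.comp k3 (m3.comp (m2.comp m1))
  have t2 : ContinuousOn (fun b => τ₂ (c₁ b)) (Icc u₁ u₃) := s2.contT.comp k1 m1
  have t3 : ContinuousOn (fun b => τ₃ (c₂ (c₁ b))) (Icc u₁ u₃) := s3.contT.comp k2 (m2.comp m1)
  have t4 : ContinuousOn (fun b => τ₄ (c₃ (c₂ (c₁ b)))) (Icc u₁ u₃) :=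
    s4.contT.comp k3 (m3.comp (m2.comp m1))
  -- the flow in each quadrant, in the original coordinates
  have e2 : ∀ t c, rotF φ t (0, c) = rt (φ t (c, 0)) := by
    intro t c; simp [rotF, rti]
  have e3 : ∀ t c, rotF (rotF φ) t (0, c) = rt (rt (φ t (0, -c))) := by
    intro t c; simp [rotF, rti]
  have e4 : ∀ t c, rotF (rotF (rotF φ)) t (0, c) = rt (rt (rt (φ t (-c, 0)))) := by
    intro t c; simp [rotF, rti]
  have key : ∀ b ∈ Icc u₁ u₃, 0 < τ₁ b ∧ 0 < τ₂ (c₁ b) ∧ 0 < τ₃ (c₂ (c₁ b)) ∧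
      0 < τ₄ (c₃ (c₂ (c₁ b))) ∧
      (∀ t, φ (t + τ₁ b) (0, b) = φ t (c₁ b, 0)) ∧
      (∀ t, φ (t + (τ₁ b + τ₂ (c₁ b))) (0, b) = φ t (0, -c₂ (c₁ b))) ∧
      (∀ t, φ (t + (τ₁ b + τ₂ (c₁ b) + τ₃ (c₂ (c₁ b)))) (0, b) = φ t (-c₃ (c₂ (c₁ b)), 0)) ∧
      φ (τ₄ (c₃ (c₂ (c₁ b)))) (-c₃ (c₂ (c₁ b)), 0) = (0, c₄ (c₃ (c₂ (c₁ b)))) := by
    intro b hb
    have p1 := s1.pos b hb
    have p2 := s2.pos _ (m1 hb)
    have p3 := s3.pos _ (m2 (m1 hb))
    have p4 := s4.pos _ (m3 (m2 (m1 hb)))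
    have z1 := s1.hit b hb
    have z2 := s2.hit _ (m1 hb)
    have z3 := s3.hit _ (m2 (m1 hb))
    have z4 := s4.hit _ (m3 (m2 (m1 hb)))
    set x₁ := c₁ b with hx1
    set x₂ := c₂ x₁ with hx2
    set x₃ := c₃ x₂ with hx3
    set x₄ := c₄ x₃ with hx4
    rw [e2] at z2
    rw [e3] at z3
    rw [e4] at z4
    have z2' : φ (τ₂ x₁) (x₁, 0) = (0, -x₂) := by
      rw [← rti_rt (φ (τ₂ x₁) (x₁, 0)), z2]
      simp [rti]
    have z3' : φ (τ₃ x₂) (0, -x₂) = (-x₃, 0) := by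
      rw [← rti_rt (φ (τ₃ x₂) (0, -x₂)), ← rti_rt (rt (φ (τ₃ x₂) (0, -x₂))), z3]
      simp [rti]
    have z4' : φ (τ₄ x₃) (-x₃, 0) = (0, x₄) := by
      rw [← rti_rt (φ (τ₄ x₃) (-x₃, 0)), ← rti_rt (rt (φ (τ₄ x₃) (-x₃, 0))),
        ← rti_rt (rt (rt (φ (τ₄ x₃) (-x₃, 0)))), z4]
      simp [rti]
    have f1 : ∀ t, φ (t + τ₁ b) (0, b) = φ t (x₁, 0) := fun t => by rw [h.add, z1]
    have f2 : ∀ t, φ (t + (τ₁ b + τ₂ x₁)) (0, b) = φ t (0, -x₂) := fun t => by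
      rw [h.add, add_comm (τ₁ b), f1, z2']
    have f3 : ∀ t, φ (t + (τ₁ b + τ₂ x₁ + τ₃ x₂)) (0, b) = φ t (-x₃, 0) := fun t => by
      rw [h.add, add_comm (τ₁ b + τ₂ x₁), f2, z3']
    exact ⟨p1, p2, p3, p4, f1, f2, f3, z4'⟩
  refine ⟨fun b => τ₁ b + τ₂ (c₁ b) + τ₃ (c₂ (c₁ b)) + τ₄ (c₃ (c₂ (c₁ b))),
    fun b => c₄ (c₃ (c₂ (c₁ b))), ⟨((s1.contT.add t2).add t3).add t4, k4, ?_, ?_, ?_, ?_, ?_⟩, ?_⟩
  · intro b hb
    obtain ⟨p1, p2, p3, p4, -⟩ := key b hb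
    positivity
  · intro b hb
    exact s4.mem _ (m3 (m2 (m1 hb)))
  all_goals
    intro b hb
    obtain ⟨p1, p2, p3, p4, f1, f2, f3, z4'⟩ := key b hb
    have z1 := s1.hit b hb
    have i1 := s1.mem b hb
    have i2 := s2.mem _ (m1 hb)
    have i3 := s3.mem _ (m2 (m1 hb))
    have i4 := s4.mem _ (m3 (m2 (m1 hb)))
    set x₁ := c₁ b with hx1
    set x₂ := c₂ x₁ with hx2
    set x₃ := c₃ x₂ with hx3
    set x₄ := c₄ x₃ with hx4
  · rw [add_comm (τ₁ b + τ₂ x₁ + τ₃ x₂), f3, z4']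
  · intro t ht0 ht1 hon
    have hr1 := q1.ha1
    have hr2 := q2.ha1
    have hr3 := q3.ha1
    by_cases g1 : t < τ₁ b
    · exact absurd hon.1 (s1.quad b hb t ht0 g1).1.ne'
    rcases eq_or_lt_of_le (not_lt.1 g1) with g1 | g1
    · rw [← g1, z1] at hon
      have := hon.1
      simp only at this
      linarith [i1.1]
    by_cases g2 : t < τ₁ b + τ₂ x₁
    · have := s2.quad _ (m1 hb) (t - τ₁ b) (by linarith) (by linarith)
      rw [e2, ← f1, sub_add_cancel] at this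
      exact absurd hon.1 this.2.ne'
    rcases eq_or_lt_of_le (not_lt.1 g2) with g2 | g2
    · have h9 : φ t (0, b) = (0, -x₂) := by
        have := f2 0
        rwa [zero_add, g2, h.zero] at this
      rw [h9] at hon
      have := hon.2
      simp only at this
      linarith [i2.1]
    by_cases g3 : t < τ₁ b + τ₂ x₁ + τ₃ x₂
    · have := s3.quad _ (m2 (m1 hb)) (t - (τ₁ b + τ₂ x₁)) (by linarith) (by linarith)
      rw [e3, ← f2, sub_add_cancel] at this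
      have h9 := this.1
      simp only [rt] at h9
      have := hon.1
      linarith
    rcases eq_or_lt_of_le (not_lt.1 g3) with g3 | g3
    · have h9 : φ t (0, b) = (-x₃, 0) := by
        have := f3 0
        rwa [zero_add, g3, h.zero] at this
      rw [h9] at hon
      have := hon.1
      simp only at this
      linarith [i3.1]
    · have := s4.quad _ (m3 (m2 (m1 hb))) (t - (τ₁ b + τ₂ x₁ + τ₃ x₂)) (by linarith) (by linarith)
      rw [e4, ← f3, sub_add_cancel] at this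
      have h9 := this.2
      simp only [rt] at h9
      have := hon.1
      linarith
  · intro t ht0 ht1
    have b1 := q1.ha1.trans (q1.ha12.trans q1.ha23)
    have b2 := q2.ha1.trans (q2.ha12.trans q2.ha23)
    have b3 := q3.ha1.trans (q3.ha12.trans q3.ha23)
    have b4 := q4.ha1.trans (q4.ha12.trans q4.ha23)
    by_cases g1 : t ≤ τ₁ b
    · obtain ⟨w1, w2, w3, w4, -⟩ := s1.stay b hb t ht0 g1
      exact ⟨⟨by simp only; linarith, by simp only; linarith⟩, ⟨w2, w4⟩⟩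
    by_cases g2 : t ≤ τ₁ b + τ₂ x₁
    · have := s2.stay _ (m1 hb) (t - τ₁ b) (by linarith) (by linarith)
      rw [e2, ← f1, sub_add_cancel] at this
      obtain ⟨w1, w2, w3, w4, -⟩ := this
      simp only [rt] at w1 w2 w3 w4
      exact ⟨⟨by simp only; linarith, by simp only; linarith⟩,
        ⟨by simp only; linarith, by simp only; linarith⟩⟩
    by_cases g3 : t ≤ τ₁ b + τ₂ x₁ + τ₃ x₂
    · have := s3.stay _ (m2 (m1 hb)) (t - (τ₁ b + τ₂ x₁)) (by linarith) (by linarith)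
      rw [e3, ← f2, sub_add_cancel] at this
      obtain ⟨w1, w2, w3, w4, -⟩ := this
      simp only [rt] at w1 w2 w3 w4
      exact ⟨⟨by simp only; linarith, by simp only; linarith⟩,
        ⟨by simp only; linarith, by simp only; linarith⟩⟩
    · have := s4.stay _ (m3 (m2 (m1 hb))) (t - (τ₁ b + τ₂ x₁ + τ₃ x₂)) (by linarith)
        (by linarith)
      rw [e4, ← f3, sub_add_cancel] at this
      obtain ⟨w1, w2, w3, w4, -⟩ := this
      simp only [rt] at w1 w2 w3 w4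
      exact ⟨⟨by simp only; linarith, by simp only; linarith⟩,
        ⟨by simp only; linarith, by simp only; linarith⟩⟩
  · refine ⟨τ₁ b, τ₁ b + τ₂ x₁, τ₁ b + τ₂ x₁ + τ₃ x₂, p1, by linarith, by linarith,
      by simp only; linarith, ?_, ?_, ?_, ?_⟩
    · rintro t ⟨ht0, ht1⟩
      obtain ⟨w1, -, w3, -, w5⟩ := s1.stay b hb t ht0 ht1
      exact ⟨w1, w3, w5⟩
    · rintro t ⟨ht0, ht1⟩
      have := s2.stay _ (m1 hb) (t - τ₁ b) (by linarith) (by linarith)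
      rw [e2, ← f1, sub_add_cancel] at this
      obtain ⟨w1, -, w3, -, w5⟩ := this
      simp only [rt] at w1 w3 w5
      exact ⟨w3, by linarith, w5⟩
    · rintro t ⟨ht0, ht1⟩
      have := s3.stay _ (m2 (m1 hb)) (t - (τ₁ b + τ₂ x₁)) (by linarith) (by linarith)
      rw [e3, ← f2, sub_add_cancel] at this
      obtain ⟨w1, -, w3, -, w5⟩ := this
      simp only [rt] at w1 w3 w5
      exact ⟨by linarith, by linarith, w5⟩
    · rintro t ⟨ht0, ht1⟩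
      have ht1' : t ≤ τ₁ b + τ₂ x₁ + τ₃ x₂ + τ₄ x₃ := ht1
      have := s4.stay _ (m3 (m2 (m1 hb))) (t - (τ₁ b + τ₂ x₁ + τ₃ x₂)) (by linarith)
        (by linarith)
      rw [e4, ← f3, sub_add_cancel] at this
      obtain ⟨w1, -, w3, -, w5⟩ := this
      simp only [rt] at w1 w3 w5
      refine ⟨by linarith, by linarith, ?_⟩
      rcases w5 with w5 | w5
      · left; linarith
      · right; exact w5

/-- a fixed point of the return map -/
lemma exists_fixed' {φ : ℝ → ℝ × ℝ → ℝ × ℝ} {l₃ d₃ r₃ u₁ u₃ : ℝ} {T g : ℝ → ℝ}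
    (h : Turn φ l₃ d₃ r₃ u₁ u₃ T g) (hu13 : u₁ ≤ u₃) : ∃ b ∈ Ioo u₁ u₃, g b = b := by
  have hc : ContinuousOn (fun b => g b - b) (Icc u₁ u₃) := h.contG.sub continuousOn_id
  have h1 : 0 ≤ g u₁ - u₁ := by
    have := (h.mem _ (left_mem_Icc.2 hu13)).1
    linarith
  have h3 : g u₃ - u₃ ≤ 0 := by
    have := (h.mem _ (right_mem_Icc.2 hu13)).2
    linarith
  obtain ⟨b, hb, hb0⟩ := intermediate_value_Icc' hu13 hc ⟨h3, h1⟩
  simp only at hb0
  have h4 : g b = b := by linarith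
  exact ⟨b, by rw [← h4]; exact h.mem _ hb, h4⟩

variable {F : ℝ × ℝ → ℝ × ℝ} {X : C(ℝ × ℝ, ℝ × ℝ)} {φ : ℝ → ℝ × ℝ → ℝ × ℝ} {c : ℝ × ℝ}
    {l₃ d₃ r₃ u₁ u₃ : ℝ} {T g : ℝ → ℝ} {R' : ℝ}

/-- the orbit of a fixed point of the second iterate is a limit cycle -/
theorem limitCycle_of {S : Finset (ℕ × ℕ)} {A B : ℕ × ℕ → ℝ} {K : NNReal}
    (h : Ctx (polyF S A B) X φ c l₃ d₃ r₃ u₁ u₃ T g R') (hX : ContDiff ℝ 1 X)
    (hK : LipschitzWith K X) {x : ℝ} (hx : x ∈ Ioo u₁ u₃) (hfix : g (g x) = x) :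
    LimitCycle (polyF S A B) (range fun t => φ t (c + (0, x))) ∧
      ∀ t, φ t (c + (0, x)) - c ∈ Icc (-l₃, -d₃) (r₃, u₃) := by
  have hx' := Ioo_subset_Icc_self hx
  obtain ⟨ε, hε, hiso⟩ := h.isolated hX hK hx
  set P := T (g x) + T x with hP
  have hP0 : 0 < P := add_pos (h.turn.pos _ (h.turn.mapsTo hx')) (h.turn.pos _ hx')
  set γ : ℝ → ℝ × ℝ := fun t => φ t (c + (0, x)) with hγ
  have hper : ∀ t, γ (t + P) = γ t := by
    intro t
    simp only [hγ]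
    rw [h.fl.add, hP, h.ret hx', hfix]
  have hbox : ∀ t, γ t - c ∈ Icc (-l₃, -d₃) (r₃, u₃) := by
    intro t
    obtain ⟨n, hn⟩ := exists_shift t P 0 hP0
    rw [← periodic_nat hper n t]
    exact h.forward hx' hn.le
  have hγc : Continuous γ := h.isFlow.continuous _
  have hγd : ∀ t, HasDerivAt γ (polyF S A B (γ t)) t := by
    intro t
    have h1 := h.fl.deriv (c + (0, x)) t
    have h2 : ‖γ t‖ < R' := by
      have := h.box _ (hbox t)
      rwa [add_sub_cancel] at this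
    rw [h.eqF _ h2] at h1
    exact h1
  have hone : ∀ b, |b - x| < ε → b ∈ Icc u₁ u₃ := fun b hb => (hiso b hb).1
  -- γ is not constant
  have hnc : ∃ s t, γ s ≠ γ t := by
    have h0 : HasDerivAt (fun t => (γ t).1) (X (c + (0, x))).1 0 := by
      have := hasDerivAt_fst (fun t => h.fl.deriv (c + (0, x)) t) 0
      rwa [h.fl.zero] at this
    obtain ⟨s, hs⟩ := (ev_right_gt h0 (h.sec x hx')).exists
    exact ⟨0, s, fun he => by rw [he] at hs; exact lt_irrefl _ hs⟩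
  refine ⟨⟨⟨γ, P, hP0, hγd, hper, hnc, rfl⟩,
    {v | ∃ s, 0 < s ∧ ∃ b, |b - x| < ε ∧ φ s (c + (0, b)) = v}, h.isOpen_sat hone, ?_, ?_⟩, hbox⟩
  · rintro v ⟨t, rfl⟩
    obtain ⟨n, hn⟩ := exists_shift t P 0 hP0
    exact ⟨t + n * P, hn, x, by simpa using hε, periodic_nat hper n t⟩
  · rintro D ⟨δ, Q, hQ, hδd, hδper, -, rfl⟩ ⟨v, ⟨t₀, hv⟩, s, hs, b, hb, hvb⟩
    have hb' := hone b hb
    set y : ℝ → ℝ × ℝ := fun t => φ t (c + (0, b)) with hy
    set z : ℝ → ℝ × ℝ := fun t => δ (t + (t₀ - s)) with hz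
    have hyc : Continuous y := h.isFlow.continuous _
    have hδc : Continuous δ := continuous_iff_continuousAt.2 fun t => (hδd t).continuousAt
    have hzc : Continuous z := hδc.comp (continuous_id.add continuous_const)
    have hyd : ∀ t, 0 ≤ t → HasDerivAt y (polyF S A B (y t)) t := by
      intro t ht
      have h1 := h.fl.deriv (c + (0, b)) t
      rw [h.eqF _ (h.norm_lt hb' ht)] at h1
      exact h1
    have hzd : ∀ t, HasDerivAt z (polyF S A B (z t)) t := by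
      intro t
      have h1 : HasDerivAt z ((1 : ℝ) • polyF S A B (δ (t + (t₀ - s)))) t :=
        (hδd (t + (t₀ - s))).scomp t ((hasDerivAt_id t).add_const (t₀ - s))
      rwa [one_smul] at h1
    have hzper : ∀ t, z (t + Q) = z t := by
      intro t
      simp only [hz]
      rw [← hδper (t + (t₀ - s))]
      congr 1; ring
    have heq : ∀ t, 0 ≤ t → z t = y t := by
      intro t ht
      refine sol_unique (contDiff_polyF S A B) (M := max t s + 1) (s := s)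
        ⟨hs, lt_of_le_of_lt (le_max_right t s) (lt_add_one _)⟩ hyc hzc (fun t ht => hyd t ht.1.le)
        (fun t _ => hzd t) ?_ ⟨ht, (le_max_left t s).trans (lt_add_one _).le⟩
      simp only [hz, hy]
      rw [hvb, ← hv]
      congr 1; ring
    have hyper : φ Q (c + (0, b)) = c + (0, b) := by
      have h1 := heq Q hQ.le
      have h2 := heq 0 le_rfl
      have h3 := hzper 0
      rw [zero_add, h1, h2] at h3
      simp only [hy, h.fl.zero] at h3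
      exact h3
    have hbx : b = x := by
      refine (hiso b hb).2 ?_
      refine h.turn.periodic (h.fl.translate c) h.hu h.hu13.le hb' hQ ?_
      simp only [hyper]
      simp
    have hyγ : y = γ := by rw [hy, hγ, hbx]
    ext w
    constructor
    · rintro ⟨t, rfl⟩
      obtain ⟨n, hn⟩ := exists_shift (t - (t₀ - s)) Q 0 hQ
      have h1 : δ t = z (t - (t₀ - s)) := by simp only [hz]; congr 1; ring
      rw [h1, ← periodic_nat hzper n, heq _ hn.le, hyγ]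
      exact mem_range_self _
    · rintro ⟨t, rfl⟩
      obtain ⟨n, hn⟩ := exists_shift t P 0 hP0
      rw [← periodic_nat hper n, ← hyγ, ← heq _ hn.le]
      exact mem_range_self _

theorem race_all (hw : S_WIND) : S_RACE := by
  intro S A B c r₀ r₁ r₂ r₃ d₀ d₁ d₂ d₃ l₀ l₁ l₂ l₃ u₀ u₁ u₂ u₃ q1 q2 q3 q4
  have p1 := q1.ha1.trans (q1.ha12.trans q1.ha23)
  have p2 := q2.ha1.trans (q2.ha12.trans q2.ha23)
  have p3 := q3.ha1.trans (q3.ha12.trans q3.ha23)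
  have p4 := q4.ha1.trans (q4.ha12.trans q4.ha23)
  have hu13 : u₁ < u₃ := q1.hb12
  set R := max (max r₃ d₃) (max l₃ u₃) with hR
  have hr : r₃ ≤ R := (le_max_left _ _).trans (le_max_left _ _)
  have hd : d₃ ≤ R := (le_max_right _ _).trans (le_max_left _ _)
  have hl : l₃ ≤ R := (le_max_left _ _).trans (le_max_right _ _)
  have hu : u₃ ≤ R := (le_max_right _ _).trans (le_max_right _ _)
  obtain ⟨X₀, hX, ⟨K, hK⟩, ⟨M, hM⟩, hX₀⟩ := exists_cutoff (contDiff_polyF S A B)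
    (‖c‖ + R + 1)
  set X : C(ℝ × ℝ, ℝ × ℝ) := ⟨X₀, hX.continuous⟩ with hXdef
  have heq : ∀ p, ‖p‖ < ‖c‖ + R + 1 → X p = polyF S A B p := fun p hp =>
    (hX₀ p hp.le).self_of_nhds
  have heq' : ∀ p, ‖p‖ ≤ R → polyF S A B (c + p) = X (c + p) := fun p hp => by
    refine (heq _ ?_).symm
    have := norm_add_le c p
    linarith
  have hX1 : ContDiff ℝ 1 X := hX.of_le (by norm_num)
  obtain ⟨φ, hflow, hfl⟩ := exists_flow (X := X) hX1 hK hM
  have e1 : ∀ p, ‖p‖ ≤ R → (fun p => polyF S A B (c + p)) p = (fun p => X (c + p)) p := heq'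
  have e2 := rotW_congr e1
  have e3 := rotW_congr e2
  have e4 := rotW_congr e3
  obtain ⟨T, g, hT, hQ⟩ := exists_turn' (hfl.translate c) (q1.congr e1 hr hu) (q2.congr e2 hd hr)
    (q3.congr e3 hl hd) (q4.congr e4 hu hl)
  have hctx : Ctx (polyF S A B) X φ c l₃ d₃ r₃ u₁ u₃ T g (‖c‖ + R + 1) := by
    refine ⟨hflow, hfl, hT, q4.ha1, hu13, ?_, heq, ?_⟩
    · intro y hy
      exact (q1.congr e1 hr hu).z1 0 y le_rfl (q1.ha1.trans q1.ha12).le hy.1 hy.2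
    · rintro p ⟨⟨h1, h2⟩, ⟨h3, h4⟩⟩
      simp only at h1 h2 h3 h4
      have h5 : ‖p‖ ≤ R := by
        have : p = (p.1, p.2) := rfl
        rw [this]
        exact norm_pair_le (abs_le.2 ⟨by linarith, by linarith⟩) (abs_le.2 ⟨by linarith, by linarith⟩)
      have := norm_add_le c p
      linarith
  obtain ⟨x, hx, hfix⟩ := exists_fixed' hT hu13.le
  have hx' := Ioo_subset_Icc_self hx
  obtain ⟨hC, hbox⟩ := limitCycle_of hctx hX1 hK hx (by rw [hfix, hfix])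
  set γ : ℝ → ℝ × ℝ := fun t => φ t (c + (0, x)) with hγ
  have hP0 : 0 < T x := hT.pos _ hx'
  have hper : ∀ t, γ (t + T x) = γ t := by
    intro t
    have h1 : φ (T x) (c + (0, x)) - c = (0, g x) := hT.hit x hx'
    rw [sub_eq_iff_eq_add', hfix] at h1
    simp only [hγ]
    rw [hfl.add, h1]
  obtain ⟨s₁, s₂, s₃, hs0, hs1, hs2, hs3, w1, w2, w3, w4⟩ := hQ x hx'
  -- the inner rectangle
  have hout : ∀ t, ¬ (-l₁ < (γ t - c).1 ∧ (γ t - c).1 < r₁ ∧ -d₁ < (γ t - c).2 ∧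
      (γ t - c).2 < u₁) := by
    intro t
    obtain ⟨y, hy, hty⟩ := Function.Periodic.exists_mem_Ico₀ (f := γ) hper hP0 t
    rw [hty]
    rintro ⟨a1, a2, a3, a4⟩
    by_cases g1 : y ≤ s₁
    · obtain ⟨-, -, h1⟩ := w1 y ⟨hy.1, g1⟩
      rcases h1 with h1 | h1
      · exact absurd h1 (not_le.2 a2)
      · exact absurd h1 (not_le.2 a4)
    by_cases g2 : y ≤ s₂
    · obtain ⟨-, -, h1⟩ := w2 y ⟨(not_le.1 g1).le, g2⟩
      rcases h1 with h1 | h1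
      · have h2 : -d₁ < (φ y (c + (0, x)) - c).2 := a3
        simp only at h1
        linarith
      · exact absurd h1 (not_le.2 a2)
    by_cases g3 : y ≤ s₃
    · obtain ⟨-, -, h1⟩ := w3 y ⟨(not_le.1 g2).le, g3⟩
      rcases h1 with h1 | h1
      · have h2 : -l₁ < (φ y (c + (0, x)) - c).1 := a1
        simp only at h1
        linarith
      · have h2 : -d₁ < (φ y (c + (0, x)) - c).2 := a3
        simp only at h1
        linarith
    · obtain ⟨-, -, h1⟩ := w4 y ⟨(not_le.1 g3).le, hy.2.le⟩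
      rcases h1 with h1 | h1
      · exact absurd h1 (not_le.2 a4)
      · have h2 : -l₁ < (φ y (c + (0, x)) - c).1 := a1
        simp only at h1
        linarith
  have hne : ∀ t, γ t ≠ c := by
    intro t h0
    apply hout t
    rw [h0, sub_self]
    have b1 := q1.ha1
    have b2 := q2.ha1
    have b3 := q3.ha1
    have b4 := q4.ha1
    refine ⟨?_, ?_, ?_, ?_⟩ <;> simp only [Prod.fst_zero, Prod.snd_zero] <;> linarith
  refine ⟨range γ, hC, ?_, ?_, ?_⟩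
  · rintro p ⟨t, rfl⟩
    exact hbox t
  · rintro p ⟨t, rfl⟩
    exact hout t
  · refine hw X γ c s₁ s₂ s₃ (T x) X.continuous (fun t => hfl.deriv (c + (0, x)) t) hper
      hs0 hs1 hs2 hs3 hne ?_ ?_ ?_ ?_
    · intro t ht
      obtain ⟨h1, h2, -⟩ := w1 t ht
      exact ⟨sub_nonneg.1 h1, sub_nonneg.1 h2⟩
    · intro t ht
      obtain ⟨h1, h2, -⟩ := w2 t ht
      exact ⟨sub_nonneg.1 h1, sub_nonpos.1 h2⟩
    · intro t ht
      obtain ⟨h1, h2, -⟩ := w3 t ht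
      exact ⟨sub_nonpos.1 h1, sub_nonpos.1 h2⟩
    · intro t ht
      obtain ⟨h1, h2, -⟩ := w4 t ht
      exact ⟨sub_nonpos.1 h1, sub_nonneg.1 h2⟩

end Pool.Agent.Y274.KS
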